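import Pool.Agent.H2.Scale1

namespace Pool.Agent.Results.MP_6f70ff_gt.Line

open Pool.Agent.H2.Scale

/-- There is an infinite, connected, locally finite, vertex transitive graph that is sub scale
invariant. -/
theorem result : ∃ (V : Type) (G : SimpleGraph V), Infinite V ∧ G.Connected ∧
    (∀ v, (G.neighborSet v).Finite) ∧ VertexTransitive G ∧ SubScaleInvariant G := by
  refine ⟨ℤ, P, inferInstance, P_conn, fun v => (Set.toFinite {v + 1, v - 1}).subset fun w h => ?_,
    fun u v => ⟨⟨Equiv.addRight (v - u), by simp [P]; omega⟩, by simp⟩, fun N h =>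
      ⟨fun k hk => ⟨(main (h k hk) hk).1, 2, two_pos, (main (h k hk) hk).2 2 one_lt_two⟩,
      tendsto_const_nhds.congr' ((Filter.eventually_ge_atTop 1).mono fun k hk => ?_)⟩⟩
  · rcases h with h | h <;> simp <;> omega
  · refine le_antisymm (le_csInf ⟨2, two_pos, (main (h k hk) hk).2 2 one_lt_two⟩ fun C h =>
      low h.1 h.2) (le_of_forall_gt_imp_ge_of_dense fun C hC => csInf_le ⟨0, fun _ h => h.1.le⟩ ?_)
    exact ⟨one_pos.trans hC, (main (h k hk) hk).2 C hC⟩

end Pool.Agent.Results.MP_6f70ff_gt.Line
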